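import Pool.Agent.H741R2.PWPoly

/-!
# Pinwheel scheduling is NP-hard, even strongly

Reduction from 3SAT, in two steps.

1. *Exact periods.* Choose offsets `c i` such that the classes `c i mod b i` are pairwise disjoint,
i.e. `c i ≢ c j` modulo `gcd (b i) (b j)`.  A formula with `m` clauses has `3 m` occurrences of
literals.  Take different primes `p_o`, `q_o` (`> 3 m`, polynomially bounded) for the occurrences,
a task of period `3 m · p_o · q_o` for each occurrence `o`, a task of period
`3 m · q_o · q_o' · q_o''` for each clause with occurrences `o, o', o''`, and a task of period
`3 m · p_o · p_o'` for each pair of opposite occurrences.  The residues modulo `3 m` of the tasks of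
the occurrences are the `3 m` different bins; the task of a clause must be in the bin of one of its
occurrences, the task of an opposite pair in the bin of one of its two occurrences, and these two
kinds of tasks cannot share a bin.

2. *Fillers.*  Add `f - ∑ i, (⌊f / b i⌋ + 1)` tasks of a large, polynomially bounded period `f`.
If there are exact offsets then the fillers can use the free slots in a round-robin manner.  If
there is a schedule, then there is so little slack that in some long block all tasks that are not
fillers are executed exactly periodically, which gives exact offsets.
-/

namespace Pool.Agent.Results.MP_84f0af_lc.PinwheelNPHard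

open Pool.Agent.NPC Pool.Agent.H741R2.PW

/-- **The pinwheel scheduling problem is NP-hard, and strongly NP-hard**: it is NP-hard when the
periods are written in binary, and also when they are written in unary. -/
theorem result : NPHardP Pinwheel ∧ NPHardP PinwheelUnary :=
  ⟨hardI_pinwheel.toNPHardP, hardI_pinwheelUnary.toNPHardP⟩

end Pool.Agent.Results.MP_84f0af_lc.PinwheelNPHard
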